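import Mathlib

/-!
# Leibniz algebras of affine algebraic racks

Every finite-dimensional Leibniz algebra over a field is the Leibniz algebra of an affine algebraic
rack, so that the algebraic Leibniz algebras are exactly the finite-dimensional ones.
-/

set_option autoImplicit false
set_option maxHeartbeats 4000000
set_option synthInstance.maxHeartbeats 400000

open TensorProduct

namespace Pool.Agent.Results.MP_133c3f_al.AllFiniteDimensional

universe u

section defs

variable {k A : Type u} [Field k] [CommRing A] [Algebra k A]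

/-- The operation on `R`-points of `Spec A` with pullback `m`. -/
noncomputable def pmul (m : A →ₐ[k] A ⊗[k] A) {R : Type u} [CommRing R] [Algebra k R]
    (x y : A →ₐ[k] R) : A →ₐ[k] R :=
  (Algebra.TensorProduct.productMap x y).comp m

/-- The `k`-point with evaluation map `ε`, as an `R`-point. -/
def upt (e : A →ₐ[k] k) (R : Type u) [CommRing R] [Algebra k R] : A →ₐ[k] R :=
  (Algebra.ofId k R).comp e

/-- `(x ▷ y) ▷⁻¹ x = y`. -/
def Cancel (op inv : A →ₐ[k] A ⊗[k] A) : Prop :=
  ∀ (R : Type u) [CommRing R] [Algebra k R] (x y : A →ₐ[k] R), pmul inv (pmul op x y) x = y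

/-- `x ▷ (y ▷⁻¹ x) = y`. -/
def Cancel' (op inv : A →ₐ[k] A ⊗[k] A) : Prop :=
  ∀ (R : Type u) [CommRing R] [Algebra k R] (x y : A →ₐ[k] R), pmul op x (pmul inv y x) = y

/-- `x ▷ (y ▷ z) = (x ▷ y) ▷ (x ▷ z)`. -/
def SelfDistrib (op : A →ₐ[k] A ⊗[k] A) : Prop :=
  ∀ (R : Type u) [CommRing R] [Algebra k R] (x y z : A →ₐ[k] R),
    pmul op x (pmul op y z) = pmul op (pmul op x y) (pmul op x z)

/-- `(x ▷⁻¹ y) ▷⁻¹ z = (x ▷⁻¹ z) ▷⁻¹ (y ▷⁻¹ z)`. -/
def InvDistrib (inv : A →ₐ[k] A ⊗[k] A) : Prop :=
  ∀ (R : Type u) [CommRing R] [Algebra k R] (x y z : A →ₐ[k] R),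
    pmul inv (pmul inv x y) z = pmul inv (pmul inv x z) (pmul inv y z)

/-- `e ▷ x = x` and `x ▷ e = e`. -/
def UnitLaws (op : A →ₐ[k] A ⊗[k] A) (e : A →ₐ[k] k) : Prop :=
  ∀ (R : Type u) [CommRing R] [Algebra k R] (x : A →ₐ[k] R),
    pmul op (upt e R) x = x ∧ pmul op x (upt e R) = upt e R

variable (k A) in
/-- An affine algebraic rack `Spec A`: the pullbacks `∇ = op` of `▷` and `inv` of `▷⁻¹` and the
evaluation `ε = unit` at the unit point. -/
structure AffineRack where
  /-- pullback of `▷` -/
  op : A →ₐ[k] A ⊗[k] A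
  /-- pullback of `▷⁻¹` -/
  inv : A →ₐ[k] A ⊗[k] A
  /-- evaluation at the unit -/
  unit : A →ₐ[k] k
  cancel : Cancel op inv
  cancel' : Cancel' op inv
  selfDistrib : SelfDistrib op
  invDistrib : InvDistrib inv
  unitLaws : UnitLaws op unit
  finiteType : Algebra.FiniteType k A

/-- The space `Der_k(A, k)` of derivations at the point `e`. -/
def tangent (e : A →ₐ[k] k) : Submodule k (A →ₗ[k] k) where
  carrier := {D | ∀ f g, D (f * g) = D f * e g + e f * D g}
  zero_mem' := by intro f g; simp
  add_mem' := by
    intro D E hD hE f g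
    simp only [LinearMap.add_apply, hD f g, hE f g]
    ring
  smul_mem' := by
    intro c D hD f g
    simp only [LinearMap.smul_apply, hD f g, smul_eq_mul]
    ring

/-- The bracket `(D ⊗ E) ∘ ∇`. -/
noncomputable def tbracket (op : A →ₐ[k] A ⊗[k] A) (D E : A →ₗ[k] k) : A →ₗ[k] k :=
  (TensorProduct.lid k k).toLinearMap ∘ₗ (TensorProduct.map D E) ∘ₗ op.toLinearMap

end defs

/-- A (left) Leibniz algebra structure on the vector space `q`. -/
structure Leibniz (k q : Type u) [Field k] [AddCommGroup q] [Module k q] where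
  /-- the bracket -/
  br : q →ₗ[k] q →ₗ[k] q
  leibniz : ∀ x y z, br x (br y z) = br (br x y) z + br y (br x z)

/-- The Leibniz algebra `L` is isomorphic to the Leibniz algebra of the affine algebraic rack
`Q`. -/
def IsLeibnizOf {k q A : Type u} [Field k] [AddCommGroup q] [Module k q] [CommRing A] [Algebra k A]
    (L : Leibniz k q) (Q : AffineRack k A) : Prop :=
  ∃ φ : q ≃ₗ[k] tangent Q.unit, ∀ x y : q,
    ((φ (L.br x y) : tangent Q.unit) : A →ₗ[k] k) = tbracket Q.op (φ x) (φ y)

/-- The Leibniz algebra `L` is algebraic. -/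
def IsAlgebraic {k q : Type u} [Field k] [AddCommGroup q] [Module k q] (L : Leibniz k q) : Prop :=
  ∃ (A : Type u) (_ : CommRing A) (_ : Algebra k A) (Q : AffineRack k A), IsLeibnizOf L Q

/-! ### Algebraic Leibniz algebras are finite-dimensional -/

section finite

variable {k A : Type u} [Field k] [CommRing A] [Algebra k A]

lemma tangent_one {e : A →ₐ[k] k} (D : tangent e) : (D : A →ₗ[k] k) 1 = 0 := by
  have h := D.2 1 1
  simp only [mul_one, map_one, one_mul] at h
  exact left_eq_add.mp h

lemma tangent_finite (e : A →ₐ[k] k) (hA : Algebra.FiniteType k A) :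
    FiniteDimensional k (tangent e) := by
  obtain ⟨S, hS⟩ := hA.out
  let r : tangent e →ₗ[k] (S → k) :=
    { toFun := fun D s => (D : A →ₗ[k] k) s
      map_add' := fun _ _ => rfl
      map_smul' := fun _ _ => rfl }
  refine FiniteDimensional.of_injective r ?_
  rw [injective_iff_map_eq_zero]
  intro D hD
  have h : ∀ a : A, (D : A →ₗ[k] k) a = 0 := by
    intro a
    have ha : a ∈ Algebra.adjoin k (S : Set A) := by rw [hS]; trivial
    induction ha using Algebra.adjoin_induction with
    | mem x hx => exact congrFun hD ⟨x, hx⟩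
    | algebraMap c => rw [Algebra.algebraMap_eq_smul_one, map_smul, tangent_one, smul_zero]
    | add x y _ _ hx hy => rw [map_add, hx, hy, add_zero]
    | mul x y _ _ hx hy => rw [D.2 x y, hx, hy, zero_mul, mul_zero, add_zero]
  ext a
  exact h a

end finite

/-! ### The rack of a finite-dimensional Leibniz algebra -/

section construction

variable {k q : Type u} [Field k] [AddCommGroup q] [Module k q]

/-- The `R`-bilinear extension of the bracket to `q ⊗ R`. -/
noncomputable def BR (L : Leibniz k q) (R : Type u) [CommRing R] [Algebra k R] :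
    (q ⊗[k] R) →ₗ[k] (q ⊗[k] R) →ₗ[k] (q ⊗[k] R) :=
  TensorProduct.map₂ L.br (LinearMap.mul k R)

lemma BR_tmul (L : Leibniz k q) (R : Type u) [CommRing R] [Algebra k R] (x y : q) (r s : R) :
    BR L R (x ⊗ₜ r) (y ⊗ₜ s) = L.br x y ⊗ₜ (r * s) := rfl

lemma BR_leibniz (L : Leibniz k q) (R : Type u) [CommRing R] [Algebra k R] (u v w : q ⊗[k] R) :
    BR L R u (BR L R v w) = BR L R (BR L R u v) w + BR L R v (BR L R u w) := by
  induction u using TensorProduct.induction_on with
  | zero => simp
  | add u u' hu hu' => simp only [map_add, LinearMap.add_apply, hu, hu']; abel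
  | tmul x r =>
    induction v using TensorProduct.induction_on with
    | zero => simp
    | add v v' hv hv' => simp only [map_add, LinearMap.add_apply, hv, hv']; abel
    | tmul y s =>
      induction w using TensorProduct.induction_on with
      | zero => simp
      | add w w' hw hw' => simp only [map_add, hw, hw']; abel
      | tmul z t =>
        simp only [BR_tmul]
        rw [L.leibniz, TensorProduct.add_tmul, mul_assoc r s t, mul_left_comm s r t]

/-- The contraction of `q ⊗ R` with a linear form on `q`. -/
noncomputable def ct (R : Type u) [CommRing R] [Algebra k R] (v : Module.Dual k q) :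
    (q ⊗[k] R) →ₗ[k] R :=
  (TensorProduct.lid k R).toLinearMap ∘ₗ LinearMap.rTensor R v

lemma ct_tmul (R : Type u) [CommRing R] [Algebra k R] (v : Module.Dual k q) (x : q) (r : R) :
    ct R v (x ⊗ₜ r) = v x • r := by
  simp [ct]

lemma ct_add (R : Type u) [CommRing R] [Algebra k R] (v w : Module.Dual k q) (t : q ⊗[k] R) :
    ct R (v + w) t = ct R v t + ct R w t := by
  induction t using TensorProduct.induction_on with
  | zero => simp
  | add u u' hu hu' => simp only [map_add, hu, hu']; abel
  | tmul x r => simp only [ct_tmul, LinearMap.add_apply, add_smul]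

lemma ct_smul (R : Type u) [CommRing R] [Algebra k R] (c : k) (v : Module.Dual k q)
    (t : q ⊗[k] R) : ct R (c • v) t = c • ct R v t := by
  induction t using TensorProduct.induction_on with
  | zero => simp
  | add u u' hu hu' => simp only [map_add, hu, hu', smul_add]
  | tmul x r => simp only [ct_tmul, LinearMap.smul_apply, smul_smul, smul_eq_mul]

lemma ct_comp {R S : Type u} [CommRing R] [Algebra k R] [CommRing S] [Algebra k S]
    (f : R →ₐ[k] S) (v : Module.Dual k q) (t : q ⊗[k] R) :
    ct S v (LinearMap.lTensor q f.toLinearMap t) = f (ct R v t) := by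
  induction t using TensorProduct.induction_on with
  | zero => simp
  | add u u' hu hu' => simp only [map_add, hu, hu']
  | tmul x r => simp [ct_tmul]

lemma BR_comp {R S : Type u} [CommRing R] [Algebra k R] [CommRing S] [Algebra k S]
    (L : Leibniz k q) (f : R →ₐ[k] S) (t u : q ⊗[k] R) :
    LinearMap.lTensor q f.toLinearMap (BR L R t u)
      = BR L S (LinearMap.lTensor q f.toLinearMap t) (LinearMap.lTensor q f.toLinearMap u) := by
  induction t using TensorProduct.induction_on with
  | zero => simp
  | add t t' ht ht' => simp only [map_add, LinearMap.add_apply, ht, ht']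
  | tmul x r =>
    induction u using TensorProduct.induction_on with
    | zero => simp
    | add t t' ht ht' => simp only [map_add, ht, ht']
    | tmul y s => simp [BR_tmul]

/-- The algebra `k ⊕ q^*`. -/
abbrev AA (k q : Type u) [Field k] [AddCommGroup q] [Module k q] : Type u :=
  TrivSqZeroExt k (Module.Dual k q)

/-- The point with given values on `q^*`. -/
noncomputable def mkPt {R : Type u} [CommRing R] [Algebra k R] (g : Module.Dual k q →ₗ[k] R)
    (hg : ∀ v w, g v * g w = 0) : AA k q →ₐ[k] R :=
  TrivSqZeroExt.liftEquivOfComm ⟨g, hg⟩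

lemma mkPt_inr {R : Type u} [CommRing R] [Algebra k R] (g : Module.Dual k q →ₗ[k] R)
    (hg : ∀ v w, g v * g w = 0) (v : Module.Dual k q) :
    mkPt g hg (TrivSqZeroExt.inr v) = g v := by
  simp [mkPt]

lemma pt_ext {R : Type u} [CommRing R] [Algebra k R] (x y : AA k q →ₐ[k] R)
    (h : ∀ v : Module.Dual k q, x (TrivSqZeroExt.inr v) = y (TrivSqZeroExt.inr v)) : x = y :=
  TrivSqZeroExt.algHom_ext h

lemma pt_mul {R : Type u} [CommRing R] [Algebra k R] (x : AA k q →ₐ[k] R)
    (v w : Module.Dual k q) : x (TrivSqZeroExt.inr v) * x (TrivSqZeroExt.inr w) = 0 := by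
  rw [← map_mul, TrivSqZeroExt.inr_mul_inr, map_zero]

variable [FiniteDimensional k q]

/-- The element of `q ⊗ R` of a point. -/
noncomputable def hat {R : Type u} [CommRing R] [Algebra k R] (x : AA k q →ₐ[k] R) : q ⊗[k] R :=
  ∑ i, Module.finBasis k q i ⊗ₜ[k] x (TrivSqZeroExt.inr ((Module.finBasis k q).coord i))

lemma dual_eq (v : Module.Dual k q) :
    ∑ i, v (Module.finBasis k q i) • (Module.finBasis k q).coord i = v := by
  apply (Module.finBasis k q).ext
  intro j
  rw [LinearMap.sum_apply, Finset.sum_eq_single j]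
  · simp
  · intro i _ hij
    simp [Ne.symm hij]
  · simp

lemma ct_hat {R : Type u} [CommRing R] [Algebra k R] (x : AA k q →ₐ[k] R)
    (v : Module.Dual k q) : ct R v (hat x) = x (TrivSqZeroExt.inr v) := by
  conv_rhs => rw [← dual_eq v]
  rw [hat, map_sum, ← TrivSqZeroExt.inrHom_apply k, map_sum, map_sum]
  refine Finset.sum_congr rfl fun i _ => ?_
  rw [ct_tmul, map_smul, map_smul, TrivSqZeroExt.inrHom_apply]

lemma sum_ct {R : Type u} [CommRing R] [Algebra k R] (t : q ⊗[k] R) :
    ∑ i, Module.finBasis k q i ⊗ₜ[k] ct R ((Module.finBasis k q).coord i) t = t := by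
  induction t using TensorProduct.induction_on with
  | zero => simp
  | add t t' ht ht' =>
    conv_rhs => rw [← ht, ← ht']
    rw [← Finset.sum_add_distrib]
    refine Finset.sum_congr rfl fun i _ => ?_
    rw [map_add, TensorProduct.tmul_add]
  | tmul x r =>
    have h : ∀ i, Module.finBasis k q i ⊗ₜ[k] ct R ((Module.finBasis k q).coord i) (x ⊗ₜ[k] r)
        = ((Module.finBasis k q).repr x i • Module.finBasis k q i) ⊗ₜ[k] r := by
      intro i
      rw [ct_tmul, TensorProduct.tmul_smul, TensorProduct.smul_tmul']
      rfl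
    rw [Finset.sum_congr rfl (fun i _ => h i), ← TensorProduct.sum_tmul,
      (Module.finBasis k q).sum_repr]

lemma hat_inj {R : Type u} [CommRing R] [Algebra k R] {x y : AA k q →ₐ[k] R}
    (h : hat x = hat y) : x = y := by
  apply pt_ext
  intro v
  rw [← ct_hat, ← ct_hat, h]

lemma sq_tmul (L : Leibniz k q) {R : Type u} [CommRing R] [Algebra k R] (x : AA k q →ₐ[k] R)
    (w : q ⊗[k] R) : BR L R (hat x) (BR L R (hat x) w) = 0 := by
  induction w using TensorProduct.induction_on with
  | zero => simp
  | add w w' hw hw' => rw [map_add, map_add, hw, hw', add_zero]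
  | tmul z t =>
    simp only [hat, map_sum, LinearMap.sum_apply, BR_tmul]
    refine Finset.sum_eq_zero fun i _ => Finset.sum_eq_zero fun j _ => ?_
    rw [← mul_assoc, pt_mul, zero_mul, TensorProduct.tmul_zero]

lemma sq_tmul' (L : Leibniz k q) {R : Type u} [CommRing R] [Algebra k R] (x : AA k q →ₐ[k] R)
    (u w : q ⊗[k] R) : BR L R (BR L R (hat x) u) (BR L R (hat x) w) = 0 := by
  induction w using TensorProduct.induction_on with
  | zero => simp
  | add w w' hw hw' => rw [map_add, map_add, hw, hw', add_zero]
  | tmul z t =>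
    induction u using TensorProduct.induction_on with
    | zero => simp
    | add w w' hw hw' => rw [map_add, map_add, LinearMap.add_apply, hw, hw', add_zero]
    | tmul y s =>
      simp only [hat, map_sum, LinearMap.sum_apply, BR_tmul]
      refine Finset.sum_eq_zero fun i _ => Finset.sum_eq_zero fun j _ => ?_
      rw [mul_mul_mul_comm, pt_mul, zero_mul, TensorProduct.tmul_zero]

/-- The linear map of the point `x ▷ y`. -/
noncomputable def starLin (L : Leibniz k q) (c : k) {R : Type u} [CommRing R] [Algebra k R]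
    (x y : AA k q →ₐ[k] R) : Module.Dual k q →ₗ[k] R where
  toFun v := ct R v (hat y + c • BR L R (hat x) (hat y))
  map_add' v w := ct_add R v w _
  map_smul' d v := ct_smul R d v _

lemma ct_BR_mem (L : Leibniz k q) {R : Type u} [CommRing R] [Algebra k R]
    (x y : AA k q →ₐ[k] R) (v : Module.Dual k q) :
    ct R v (BR L R (hat x) (hat y)) ∈
      Ideal.span (Set.range fun w : Module.Dual k q => y (TrivSqZeroExt.inr w)) := by
  simp only [hat, map_sum, LinearMap.sum_apply, BR_tmul, ct_tmul]
  refine Ideal.sum_mem _ fun i _ => Ideal.sum_mem _ fun j _ => ?_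
  rw [Algebra.smul_def]
  exact Ideal.mul_mem_left _ _ (Ideal.mul_mem_left _ _ (Ideal.subset_span ⟨_, rfl⟩))

lemma starLin_mem (L : Leibniz k q) (c : k) {R : Type u} [CommRing R] [Algebra k R]
    (x y : AA k q →ₐ[k] R) (v : Module.Dual k q) :
    starLin L c x y v ∈
      Ideal.span (Set.range fun w : Module.Dual k q => y (TrivSqZeroExt.inr w)) := by
  show ct R v (hat y + c • BR L R (hat x) (hat y)) ∈ _
  rw [map_add, map_smul, ct_hat, Algebra.smul_def]
  exact Ideal.add_mem _ (Ideal.subset_span ⟨_, rfl⟩) (Ideal.mul_mem_left _ _ (ct_BR_mem L x y v))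

lemma starLin_mul (L : Leibniz k q) (c : k) {R : Type u} [CommRing R] [Algebra k R]
    (x y : AA k q →ₐ[k] R) (v w : Module.Dual k q) :
    starLin L c x y v * starLin L c x y w = 0 := by
  have h : Ideal.span (Set.range fun w : Module.Dual k q => y (TrivSqZeroExt.inr w)) *
      Ideal.span (Set.range fun w : Module.Dual k q => y (TrivSqZeroExt.inr w)) = ⊥ := by
    rw [Ideal.span_mul_span', Ideal.span_eq_bot]
    rintro _ ⟨_, ⟨a, rfl⟩, _, ⟨b, rfl⟩, rfl⟩
    exact pt_mul y a b
  have h2 := Ideal.mul_mem_mul (starLin_mem L c x y v) (starLin_mem L c x y w)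
  rw [h] at h2
  exact (Submodule.mem_bot R).mp h2

/-- The point `x ▷ y` (for `c = 1`) or `y ▷⁻¹ x` (for `c = -1`). -/
noncomputable def star (L : Leibniz k q) (c : k) {R : Type u} [CommRing R] [Algebra k R]
    (x y : AA k q →ₐ[k] R) : AA k q →ₐ[k] R :=
  mkPt (starLin L c x y) (starLin_mul L c x y)

lemma hat_star (L : Leibniz k q) (c : k) {R : Type u} [CommRing R] [Algebra k R]
    (x y : AA k q →ₐ[k] R) : hat (star L c x y) = hat y + c • BR L R (hat x) (hat y) := by
  rw [hat]
  have h : ∀ i, Module.finBasis k q i ⊗ₜ[k]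
      (star L c x y) (TrivSqZeroExt.inr ((Module.finBasis k q).coord i))
      = Module.finBasis k q i ⊗ₜ[k] ct R ((Module.finBasis k q).coord i)
        (hat y + c • BR L R (hat x) (hat y)) := by
    intro i
    rw [star, mkPt_inr]
    rfl
  rw [Finset.sum_congr rfl (fun i _ => h i), sum_ct]

lemma hat_comp {R S : Type u} [CommRing R] [Algebra k R] [CommRing S] [Algebra k S]
    (f : R →ₐ[k] S) (x : AA k q →ₐ[k] R) :
    hat (f.comp x) = LinearMap.lTensor q f.toLinearMap (hat x) := by
  rw [hat, hat, map_sum]
  rfl

lemma star_comp (L : Leibniz k q) (c : k) {R S : Type u} [CommRing R] [Algebra k R] [CommRing S]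
    [Algebra k S] (f : R →ₐ[k] S) (x y : AA k q →ₐ[k] R) :
    f.comp (star L c x y) = star L c (f.comp x) (f.comp y) := by
  apply hat_inj
  rw [hat_comp, hat_star, hat_star, hat_comp, hat_comp, map_add, map_smul, BR_comp]

/-- The pullback of `▷`. -/
noncomputable def theOp (L : Leibniz k q) : AA k q →ₐ[k] AA k q ⊗[k] AA k q :=
  star (R := AA k q ⊗[k] AA k q) L 1 Algebra.TensorProduct.includeLeft
    Algebra.TensorProduct.includeRight

/-- The pullback of `▷⁻¹`. -/
noncomputable def theInv (L : Leibniz k q) : AA k q →ₐ[k] AA k q ⊗[k] AA k q :=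
  star (R := AA k q ⊗[k] AA k q) L (-1) Algebra.TensorProduct.includeRight
    Algebra.TensorProduct.includeLeft

lemma pmul_op (L : Leibniz k q) {R : Type u} [CommRing R] [Algebra k R]
    (x y : AA k q →ₐ[k] R) : pmul (theOp L) x y = star L 1 x y := by
  rw [pmul, theOp, star_comp, Algebra.TensorProduct.productMap_left,
    Algebra.TensorProduct.productMap_right]

lemma pmul_inv (L : Leibniz k q) {R : Type u} [CommRing R] [Algebra k R]
    (x y : AA k q →ₐ[k] R) : pmul (theInv L) x y = star L (-1) y x := by
  rw [pmul, theInv, star_comp, Algebra.TensorProduct.productMap_left,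
    Algebra.TensorProduct.productMap_right]

lemma star_cancel (L : Leibniz k q) (c d : k) (h : c + d = 0) {R : Type u} [CommRing R]
    [Algebra k R] (x y : AA k q →ₐ[k] R) : star L c x (star L d x y) = y := by
  apply hat_inj
  rw [hat_star, hat_star, map_add, map_smul, sq_tmul, smul_zero, add_zero, add_assoc, ← add_smul,
    add_comm d c, h, zero_smul, add_zero]

lemma star_distrib (L : Leibniz k q) (c : k) {R : Type u} [CommRing R]
    [Algebra k R] (x y z : AA k q →ₐ[k] R) :
    star L c x (star L c y z) = star L c (star L c x y) (star L c x z) := by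
  apply hat_inj
  simp only [hat_star, map_add, map_smul, LinearMap.add_apply, LinearMap.smul_apply, sq_tmul',
    smul_zero, add_zero, BR_leibniz L R (hat x) (hat y) (hat z), smul_add]
  abel

lemma hat_upt (R : Type u) [CommRing R] [Algebra k R] :
    hat (upt (TrivSqZeroExt.fstHom k k (Module.Dual k q)) R) = 0 := by
  rw [hat]
  refine Finset.sum_eq_zero fun i _ => ?_
  have : (upt (TrivSqZeroExt.fstHom k k (Module.Dual k q)) R)
      (TrivSqZeroExt.inr ((Module.finBasis k q).coord i)) = 0 := by
    simp [upt]
  rw [this, TensorProduct.tmul_zero]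

/-- The rack of a finite-dimensional Leibniz algebra. -/
noncomputable def theRack (L : Leibniz k q) : AffineRack k (AA k q) where
  op := theOp L
  inv := theInv L
  unit := TrivSqZeroExt.fstHom k k (Module.Dual k q)
  cancel := by
    intro R _ _ x y
    rw [pmul_inv, pmul_op, star_cancel L _ _ (by ring)]
  cancel' := by
    intro R _ _ x y
    rw [pmul_op, pmul_inv, star_cancel L _ _ (by ring)]
  selfDistrib := by
    intro R _ _ x y z
    simp only [pmul_op]
    exact star_distrib L 1 x y z
  invDistrib := by
    intro R _ _ x y z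
    simp only [pmul_inv]
    exact star_distrib L (-1) z y x
  unitLaws := by
    intro R _ _ x
    refine ⟨?_, ?_⟩
    · apply hat_inj
      rw [pmul_op, hat_star, hat_upt, map_zero, LinearMap.zero_apply, smul_zero, add_zero]
    · apply hat_inj
      rw [pmul_op, hat_star, hat_upt, map_zero, smul_zero, add_zero]
  finiteType := by
    have : Module.Finite k (AA k q) := inferInstanceAs (Module.Finite k (k × Module.Dual k q))
    infer_instance

/-- The derivation `a + v ↦ v(y)` of an element `y` of `q`. -/
noncomputable def der (y : q) : AA k q →ₗ[k] k :=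
  (Module.Dual.eval k q y) ∘ₗ (TrivSqZeroExt.sndHom k (Module.Dual k q))

omit [FiniteDimensional k q] in
lemma der_apply (y : q) (a : AA k q) : der y a = a.snd y := rfl

/-- The isomorphism of `q` with the tangent space. -/
noncomputable def tmap : q →ₗ[k] tangent (TrivSqZeroExt.fstHom k k (Module.Dual k q)) where
  toFun y := ⟨der y, by
    intro f g
    simp only [der_apply, TrivSqZeroExt.snd_mul, LinearMap.add_apply, LinearMap.smul_apply]
    simp
    ring⟩
  map_add' y z := by
    ext a
    simp [der_apply]
  map_smul' c y := by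
    ext a
    simp [der_apply]

lemma tmap_inj : Function.Injective (tmap (k := k) (q := q)) := by
  rw [injective_iff_map_eq_zero]
  intro y hy
  rw [← Module.forall_dual_apply_eq_zero_iff k]
  intro v
  have h := congrArg (fun D => (D : AA k q →ₗ[k] k) (TrivSqZeroExt.inr v)) (congrArg Subtype.val hy)
  exact h

lemma tmap_surj : Function.Surjective (tmap (k := k) (q := q)) := by
  intro D
  obtain ⟨y, hy⟩ := (Module.evalEquiv k q).surjective
    ((D : AA k q →ₗ[k] k) ∘ₗ TrivSqZeroExt.inrHom k (Module.Dual k q))
  refine ⟨y, ?_⟩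
  ext a
  have h1 : (D : AA k q →ₗ[k] k) a = (D : AA k q →ₗ[k] k) (TrivSqZeroExt.inr a.snd) := by
    conv_lhs => rw [← TrivSqZeroExt.inl_fst_add_inr_snd_eq a]
    have h2 : (TrivSqZeroExt.inl a.fst : AA k q) = a.fst • (1 : AA k q) := by
      ext <;> simp
    rw [map_add, h2, map_smul, tangent_one, smul_zero, zero_add]
  rw [h1]
  have h3 := LinearMap.congr_fun hy a.snd
  exact h3

lemma br_expand (L : Leibniz k q) (x y : q) (v : Module.Dual k q) :
    v (L.br x y) = ∑ j, ∑ i, v (L.br (Module.finBasis k q i) (Module.finBasis k q j)) *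
      ((Module.finBasis k q).coord i x * (Module.finBasis k q).coord j y) := by
  have hx : ∑ i, (Module.finBasis k q).coord i x • Module.finBasis k q i = x :=
    (Module.finBasis k q).sum_repr x
  have hy : ∑ i, (Module.finBasis k q).coord i y • Module.finBasis k q i = y :=
    (Module.finBasis k q).sum_repr y
  calc v (L.br x y) = v (L.br (∑ i, (Module.finBasis k q).coord i x • Module.finBasis k q i)
        (∑ j, (Module.finBasis k q).coord j y • Module.finBasis k q j)) := by rw [hx, hy]
    _ = _ := by
      simp only [map_sum, LinearMap.sum_apply, map_smul, LinearMap.smul_apply, smul_eq_mul]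
      refine Finset.sum_congr rfl fun i _ => ?_
      rw [Finset.mul_sum]
      refine Finset.sum_congr rfl fun j _ => ?_
      ring

lemma tbracket_inr (L : Leibniz k q) (x y : q) (v : Module.Dual k q) :
    tbracket (theOp L) (der x) (der y) (TrivSqZeroExt.inr v) = v (L.br x y) := by
  have h1 : theOp L (TrivSqZeroExt.inr v) = ct (AA k q ⊗[k] AA k q) v
      (hat Algebra.TensorProduct.includeRight + (1 : k) • BR L (AA k q ⊗[k] AA k q)
        (hat Algebra.TensorProduct.includeLeft) (hat Algebra.TensorProduct.includeRight)) := by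
    rw [theOp, star, mkPt_inr]
    rfl
  rw [br_expand]
  show (TensorProduct.lid k k) (TensorProduct.map (der x) (der y) (theOp L _)) = _
  rw [h1, map_add, map_add, map_add, ct_hat, one_smul]
  have h2 : TensorProduct.map (der x) (der y)
      (Algebra.TensorProduct.includeRight (TrivSqZeroExt.inr v : AA k q) :
        AA k q ⊗[k] AA k q) = 0 := by
    rw [Algebra.TensorProduct.includeRight_apply, TensorProduct.map_tmul, der_apply]
    simp
  rw [h2, map_zero, zero_add]
  simp only [hat, map_sum, LinearMap.sum_apply, BR_tmul, ct_tmul, map_smul,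
    Algebra.TensorProduct.includeRight_apply, Algebra.TensorProduct.includeLeft_apply,
    Algebra.TensorProduct.tmul_mul_tmul, mul_one, one_mul, TensorProduct.map_tmul, der_apply,
    TrivSqZeroExt.snd_inr, TensorProduct.lid_tmul, smul_eq_mul]

lemma tbracket_eq (L : Leibniz k q) (x y : q) :
    tbracket (theOp L) (der x) (der y) = der (L.br x y) := by
  refine LinearMap.ext fun a => ?_
  have h2 : (TrivSqZeroExt.inl a.fst : AA k q) = a.fst • (1 : AA k q) := by
    ext <;> simp
  have h1 : tbracket (theOp L) (der x) (der y) (1 : AA k q) = 0 := by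
    have h3 : theOp L (1 : AA k q) = (1 : AA k q) ⊗ₜ[k] (1 : AA k q) :=
      (theOp L).map_one
    show (TensorProduct.lid k k) (TensorProduct.map (der x) (der y) (theOp L 1)) = _
    rw [h3, TensorProduct.map_tmul, der_apply]
    simp
  conv_lhs => rw [← TrivSqZeroExt.inl_fst_add_inr_snd_eq a]
  rw [map_add, h2, map_smul, h1, smul_zero, zero_add, tbracket_inr]
  rfl

lemma isLeibnizOf (L : Leibniz k q) : IsLeibnizOf L (theRack L) :=
  ⟨LinearEquiv.ofBijective tmap ⟨tmap_inj, tmap_surj⟩, fun x y => (tbracket_eq L x y).symm⟩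

end construction

/-- A Leibniz algebra over a field is the Leibniz algebra of an affine algebraic rack if and only
if it is finite-dimensional. -/
theorem result {k q : Type u} [Field k] [AddCommGroup q] [Module k q] (L : Leibniz k q) :
    IsAlgebraic L ↔ FiniteDimensional k q := by
  constructor
  · rintro ⟨A, _, _, Q, φ, -⟩
    have := tangent_finite Q.unit Q.finiteType
    exact Module.Finite.equiv φ.symm
  · intro h
    exact ⟨AA k q, inferInstance, inferInstance, theRack L, isLeibnizOf L⟩

end Pool.Agent.Results.MP_133c3f_al.AllFiniteDimensional
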